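import Mathlib
import Pool.Agent.Lib.MP_f2f914_nt.DCFinal

/-!
Digit changes of irrational algebraic numbers: more than any power of the logarithm.
-/

namespace Pool.Agent.Results.MP_f2f914_nt.DigitChanges

theorem result (b : ℕ) (hb : 2 ≤ b) (ξ : ℝ) (hirr : Irrational ξ) (halg : IsAlgebraic ℚ ξ)
    (a : ℕ → ℤ) (hbdd : ∃ S : ℤ, ∀ n, |a n| ≤ S)
    (hsum : HasSum (fun n : ℕ => (a n : ℝ) / (b : ℝ) ^ n) ξ) (h : ℕ) (hh : 1 ≤ h) (C : ℝ) :
    ∀ᶠ N : ℕ in Filter.atTop, Real.log (N : ℝ) ^ C ≤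
      (((Finset.range N).filter fun n => a (n + h) ≠ a n).card : ℝ) := by
  obtain ⟨S, hS⟩ := hbdd
  exact Pool.Agent.Lib.MP_f2f914_nt.DC.digit_changes b hb ξ hirr halg a S hS hsum h hh C

end Pool.Agent.Results.MP_f2f914_nt.DigitChanges
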