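import Pool.Agent.Lib.MP_f2f914_nt.EAB.Final

namespace Pool.Agent.Results.MP_f2f914_nt.EffectiveComplexity

theorem result (D L r b n z N : ℕ) (hz : z = 2 * (r * (L + 6)) + D + 4) (hN : N = z ^ (121 * z))
    (hb : 2 ≤ b) (hn1 : 1 ≤ n) (hn : 2 ^ 2 ^ (4 * N) ≤ max b n) (P : Polynomial ℤ)
    (hirr : Irreducible (P.map (Int.castRingHom ℚ))) (hP : P.natDegree ≤ D)
    (hcoef : ∀ i, |P.coeff i| ≤ (b : ℤ) ^ n) (x : ℝ) (hx : Irrational x)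
    (hroot : Polynomial.aeval x P = 0) (a : Fin r → ℕ → ℤ)
    (ha : ∀ k i, |a k i| ≤ (b : ℤ) ^ (2 * n)) (y : Fin r → ℝ)
    (hsum : ∀ k, HasSum (fun i : ℕ => (a k i : ℝ) / (b : ℝ) ^ i) (y k)) (q₀ : ℤ) (q : Fin r → ℤ)
    (hq0 : q₀ ≠ 0) (hq₀ : |q₀| ≤ (b : ℤ) ^ n) (hq : ∀ k, |q k| ≤ (b : ℤ) ^ n)
    (hxy : (q₀ : ℝ) * x = ∑ k, (q k : ℝ) * y k) :
    ∃ k, L * n <
      ((Finset.Ico n (2 ^ N * n)).image fun i => fun j : Fin n => a k (i + j)).card := by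
  subst hz
  exact Pool.Agent.Lib.MP_f2f914_nt.EAB.many_blocks_sum D L r b n hb hn1 N hN hn P hirr hP hcoef x
    hx hroot a ha y hsum q₀ q hq0 hq₀ hq hxy

end Pool.Agent.Results.MP_f2f914_nt.EffectiveComplexity
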