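import Mathlib
import Pool.Agent.Lib.MP_f2f914_nt.PC6

set_option autoImplicit false

namespace Pool.Agent.Results.MP_f2f914_nt.PolyChanges

open NumberField

/-- Let `x = σ θ` be a real algebraic number, `K = ℚ(θ)`, and let `p` be a prime not dividing the
base `b` such that every prime `P` of `K` above `p` is ramified (`p ∈ P ^ 2`) or a pole of
`(b ^ h - 1) θ`.  Then every base `b` expansion of `x` with bounded integer digits has at least
`N ^ c` changes at lag `h` among its first `N` digits. -/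
theorem result {K : Type*} [Field K] [NumberField K] (σ : K →+* ℝ) (θ : K)
    (hθ : Algebra.adjoin ℚ {θ} = ⊤) (b h p : ℕ) (hb : 2 ≤ b) (hh : 1 ≤ h) (hp : p.Prime)
    (hpb : ¬ p ∣ b)
    (hram : ∀ P : Ideal (𝓞 K), P.IsPrime → (p : 𝓞 K) ∈ P →
      (p : 𝓞 K) ∈ P ^ 2 ∨ ∀ u v : 𝓞 K, (v : K) * (((b : K) ^ h - 1) * θ) = u → v ∈ P)
    (a : ℕ → ℤ) (hbdd : ∃ S : ℤ, ∀ n, |a n| ≤ S)
    (hsum : HasSum (fun n : ℕ => (a n : ℝ) / (b : ℝ) ^ n) (σ θ)) :
    ∃ c : ℝ, 0 < c ∧ ∀ᶠ N : ℕ in Filter.atTop, (N : ℝ) ^ c ≤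
      (((Finset.range N).filter fun n => a (n + h) ≠ a n).card : ℝ) := by
  obtain ⟨S, hS⟩ := hbdd
  exact Pool.Agent.Lib.MP_f2f914_nt.PC.changes σ θ hθ b h p hb hh hp hpb hram a S hS hsum

end Pool.Agent.Results.MP_f2f914_nt.PolyChanges
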