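import Pool.Agent.Lib.MP_f2f914_nt.Stammer

namespace Pool.Agent.Results.MP_f2f914_nt.StammerPlusLinear

/-- The number of distinct blocks of length `n` of the word `u` starting at a position in
`[s, s + L)`. -/
noncomputable def blocks (u : ℕ → ℤ) (n s L : ℕ) : ℕ :=
  Set.ncard {w : Fin n → ℤ | ∃ a < L, ∀ j : Fin n, w j = u (s + a + j)}

theorem result (k C : ℕ) : ∃ K : ℕ, ∀ (b : ℕ), 2 ≤ b → ∀ (x : ℝ), IsAlgebraic ℚ x →
    Irrational x → ∀ (v : ℕ → ℤ) (u : Fin k → ℕ → ℤ), (Set.range v).Finite →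
    (∀ i, (Set.range (u i)).Finite) → ∀ (q₀ q₁ : ℚ) (q : Fin k → ℚ),
    x = q₀ + q₁ * ∑' t, (v t : ℝ) / (b : ℝ) ^ (t + 1) +
      ∑ i, (q i : ℝ) * ∑' t, (u i t : ℝ) / (b : ℝ) ^ (t + 1) →
    ∀ C' : ℕ, ∃ N : ℕ, ∀ n ≥ N,
      ∀ s t : ℕ, s < t → t ≤ C' * n → (∀ j < K * n, v (s + j) = v (t + j)) →
        ∃ i, C * n < blocks (u i) n s (K * n) ∨ C * n < blocks (u i) n t (K * n) :=
  Pool.Agent.Lib.MP_f2f914_nt.Stammer.combination k C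

end Pool.Agent.Results.MP_f2f914_nt.StammerPlusLinear
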